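import Pool.Agent.Helper74.Final

/-!
Recognition of clique graphs among finite planar graphs is in P.
-/

namespace Pool.Agent.Results.MP_8f2c22_lc.PlanarInP

open Pool.Agent.Helper74

open Classical in
/-- There is a polynomial time Turing machine which, given (the adjacency matrix of) a finite
planar graph, decides whether it is a clique graph. -/
theorem result : Nonempty (Turing.TM2ComputableInPolyTime
    (fun G : {G : Σ n : ℕ, SimpleGraph (Fin n) // IsPlanar G.2} => encodeGraph G.1)
    Computability.encodeBool
    (fun G => decide (IsCliqueGraph G.1.2))) := by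
  refine fixpoint_poly 16 16 stepF finF (fun G => G.1.1) (fun G => adjE G.1) _
    (fun G => encodeGraph_eq G.1) _ ?_
  intro G
  have h := fixVal_iff G.1 G.2.1
  by_cases hc : IsCliqueGraph G.1.2
  · rw [h.2 hc]
    simp [hc]
  · have h2 : ¬ (fixVal 16 16 stepF finF G.1.1 (adjE G.1) = true) := fun hh => hc (h.1 hh)
    rw [Bool.not_eq_true] at h2
    rw [h2]
    simp [hc]

end Pool.Agent.Results.MP_8f2c22_lc.PlanarInP
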